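import Mathlib
import Pool.Agent.TH221.PartA

/-!
Polarization of Lipschitz functions with respect to a coordinate hyperplane.
-/

set_option autoImplicit false

open MeasureTheory Set Filter Topology Metric
open scoped ENNReal NNReal

namespace Pool.Agent.N283.Pol

open Pool.Agent.TH221

variable {n : ℕ}

/-- reflection in the hyperplane `x i = 0` -/
noncomputable def refl (i : Fin n) (x : Eu n) : Eu n :=
  WithLp.toLp 2 (fun j => if j = i then - x j else x j)

lemma refl_apply (i : Fin n) (x : Eu n) (j : Fin n) :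
    refl i x j = if j = i then - x j else x j := rfl

lemma refl_self (i : Fin n) (x : Eu n) : refl i x i = - x i := by simp [refl_apply]

lemma refl_refl (i : Fin n) (x : Eu n) : refl i (refl i x) = x := by
  ext j
  simp only [refl_apply]
  split_ifs <;> simp

/-- the reflection as a linear isometry equivalence -/
noncomputable def reflE (i : Fin n) : Eu n ≃ₗᵢ[ℝ] Eu n where
  toFun := refl i
  invFun := refl i
  left_inv := refl_refl i
  right_inv := refl_refl i
  map_add' x y := by
    ext j
    simp only [refl_apply, PiLp.add_apply]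
    split_ifs <;> ring
  map_smul' c x := by
    ext j
    simp only [refl_apply, PiLp.smul_apply, smul_eq_mul, RingHom.id_apply]
    split_ifs <;> ring
  norm_map' x := by
    show ‖refl i x‖ = ‖x‖
    rw [EuclideanSpace.norm_eq, EuclideanSpace.norm_eq]
    congr 1
    refine Finset.sum_congr rfl fun j _ => ?_
    rw [refl_apply]
    split_ifs <;> simp

lemma reflE_apply (i : Fin n) (x : Eu n) : reflE i x = refl i x := rfl

lemma reflE_symm (i : Fin n) : (reflE i).symm = reflE i := by
  ext x j
  rfl

lemma refl_dist (i : Fin n) (x y : Eu n) : dist (refl i x) (refl i y) = dist x y :=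
  (reflE i).dist_map x y

lemma refl_cont (i : Fin n) : Continuous (refl (n := n) i) := (reflE i).continuous

lemma refl_mp (i : Fin n) : MeasurePreserving (refl (n := n) i) volume volume :=
  (reflE i).measurePreserving

lemma refl_fix (i : Fin n) {x : Eu n} (hx : x i = 0) : refl i x = x := by
  ext j
  rw [refl_apply]
  split_ifs with h
  · rw [h, hx, neg_zero]
  · rfl

/-- compactly supported, locally Lipschitz functions are Lipschitz -/
lemma lip_of_local {v : Eu n → ℝ} (hv : Continuous v) (hc : HasCompactSupport v)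
    (hloc : ∀ z, ∃ r > 0, ∃ C : ℝ≥0, LipschitzOnWith C v (ball z r)) :
    ∃ C : ℝ≥0, LipschitzWith C v := by
  obtain ⟨V, hVo, hSV, C, hC⟩ := lip_near_compact (v := v) (S := tsupport v) hc
    (fun z _ => hloc z)
  obtain ⟨M, hM⟩ := hc.exists_bound_of_continuous hv
  obtain ⟨δ, hδ, hδV⟩ := hc.exists_thickening_subset_open hVo hSV
  have hM0 : 0 ≤ M := (norm_nonneg _).trans (hM 0)
  have hout : ∀ x, x ∉ tsupport v → v x = 0 := fun x hx => image_eq_zero_of_notMem_tsupport hx
  have key : ∀ x y, x ∈ tsupport v → dist (v x) (v y) ≤ (C + Real.toNNReal (M / δ) : ℝ≥0) * dist x y := by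
    intro x y hx
    rw [NNReal.coe_add, Real.coe_toNNReal _ (by positivity), add_mul]
    by_cases hy : y ∈ V
    · have h1 := hC.dist_le_mul x (hSV hx) y hy
      have h2 : 0 ≤ M / δ * dist x y := by positivity
      linarith
    · have h1 : v y = 0 := hout y fun h => hy (hSV h)
      have h2 : δ ≤ dist x y := by
        by_contra h
        push Not at h
        exact hy (hδV (mem_thickening_iff.2 ⟨x, hx, by rwa [dist_comm]⟩))
      have h3 : dist (v x) (v y) ≤ M := by
        rw [h1, dist_zero_right]
        exact hM x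
      have h4 : M ≤ M / δ * dist x y := by
        rw [div_mul_eq_mul_div, le_div_iff₀ hδ]
        gcongr
      have h5 : 0 ≤ (C : ℝ) * dist x y := by positivity
      linarith
  refine ⟨C + Real.toNNReal (M / δ), LipschitzWith.of_dist_le_mul fun x y => ?_⟩
  by_cases hx : x ∈ tsupport v
  · exact key x y hx
  · by_cases hy : y ∈ tsupport v
    · rw [dist_comm, dist_comm x y]
      exact key y x hy
    · rw [hout x hx, hout y hy, dist_self]
      positivity

/-- contraction of the values does not increase the derivative -/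
lemma fderiv_le_of_contr {u v : Eu n → ℝ} {x : Eu n} (hu : DifferentiableAt ℝ u x)
    (hv : DifferentiableAt ℝ v x) (h : ∀ y, |u y - u x| ≤ |v y - v x|) :
    ‖fderiv ℝ u x‖ ≤ ‖fderiv ℝ v x‖ := by
  refine le_of_forall_pos_le_add fun ε hε => ?_
  refine hu.hasFDerivAt.le_of_lip' (by positivity) ?_
  have h1 := (hasFDerivAt_iff_isLittleO.1 hv.hasFDerivAt).def hε
  filter_upwards [h1] with y hy
  have h2 : ‖v y - v x‖ ≤ ‖v y - v x - fderiv ℝ v x (y - x)‖ + ‖fderiv ℝ v x (y - x)‖ := by
    calc ‖v y - v x‖ = ‖(v y - v x - fderiv ℝ v x (y - x)) + fderiv ℝ v x (y - x)‖ := by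
          congr 1; ring
      _ ≤ _ := norm_add_le _ _
  have h3 := (fderiv ℝ v x).le_opNorm (y - x)
  have h4 := h y
  rw [← Real.norm_eq_abs, ← Real.norm_eq_abs] at h4
  calc ‖u y - u x‖ ≤ ‖v y - v x‖ := h4
    _ ≤ ε * ‖y - x‖ + ‖fderiv ℝ v x‖ * ‖y - x‖ := by linarith
    _ = _ := by ring

/-- polarization -/
noncomputable def pol (i : Fin n) (u : Eu n → ℝ) (x : Eu n) : ℝ :=
  if 0 ≤ x i then max (u x) (u (refl i x)) else min (u x) (u (refl i x))

lemma lip_max {u : Eu n → ℝ} {C : ℝ≥0} (hu : LipschitzWith C u) (i : Fin n) :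
    LipschitzWith C (fun x => max (u x) (u (refl i x))) := by
  have h1 : LipschitzWith C (fun x => u (refl i x)) := by
    have := hu.comp (reflE i).lipschitz
    rwa [mul_one] at this
  have := hu.max h1
  rwa [max_self] at this

lemma lip_min {u : Eu n → ℝ} {C : ℝ≥0} (hu : LipschitzWith C u) (i : Fin n) :
    LipschitzWith C (fun x => min (u x) (u (refl i x))) := by
  have h1 : LipschitzWith C (fun x => u (refl i x)) := by
    have := hu.comp (reflE i).lipschitz
    rwa [mul_one] at this
  have := hu.min h1
  rwa [max_self] at this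

lemma pol_lip {u : Eu n → ℝ} {C : ℝ≥0} (hu : LipschitzWith C u) (i : Fin n) :
    LipschitzWith C (pol i u) := by
  have hP := lip_max hu i
  have hQ := lip_min hu i
  have key : ∀ x y : Eu n, 0 ≤ x i → y i < 0 → dist (pol i u x) (pol i u y) ≤ C * dist x y := by
    intro x y hx hy
    set s : ℝ := x i / (x i - y i) with hs
    have hd : 0 < x i - y i := by linarith
    have hs0 : 0 ≤ s := by positivity
    have hs1 : s ≤ 1 := by rw [hs, div_le_one hd]; linarith
    set z : Eu n := AffineMap.lineMap x y s with hz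
    have hzi : z i = 0 := by
      have : z i = x i + s * (y i - x i) := by
        simp [hz, AffineMap.lineMap_apply, add_comm]
      rw [this, hs]
      field_simp
      ring
    have h1 : dist x z + dist z y = dist x y := by
      rw [hz, dist_left_lineMap, dist_lineMap_right, Real.norm_eq_abs, Real.norm_eq_abs,
        abs_of_nonneg hs0, abs_of_nonneg (by linarith)]
      ring
    have e1 : pol i u x = max (u x) (u (refl i x)) := if_pos hx
    have e2 : pol i u y = min (u y) (u (refl i y)) := if_neg (not_le.2 hy)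
    have e3 : max (u z) (u (refl i z)) = u z := by rw [refl_fix i hzi, max_self]
    have e4 : min (u z) (u (refl i z)) = u z := by rw [refl_fix i hzi, min_self]
    have h2 := hP.dist_le_mul x z
    have h3 := hQ.dist_le_mul z y
    simp only [e3, e4] at h2 h3
    rw [e1, e2]
    calc _ ≤ dist (max (u x) (u (refl i x))) (u z) + dist (u z) (min (u y) (u (refl i y))) :=
          dist_triangle _ _ _
      _ ≤ C * dist x z + C * dist z y := add_le_add h2 h3
      _ = C * dist x y := by rw [← mul_add, h1]
  refine LipschitzWith.of_dist_le_mul fun x y => ?_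
  by_cases hx : 0 ≤ x i
  · by_cases hy : 0 ≤ y i
    · have := hP.dist_le_mul x y
      unfold pol
      rw [if_pos hx, if_pos hy]
      exact this
    · exact key x y hx (not_le.1 hy)
  · by_cases hy : 0 ≤ y i
    · rw [dist_comm, dist_comm x y]
      exact key y x hy (not_le.1 hx)
    · have := hQ.dist_le_mul x y
      unfold pol
      rw [if_neg hx, if_neg hy]
      exact this

lemma pol_compact {u : Eu n → ℝ} (hc : HasCompactSupport u) (i : Fin n) :
    HasCompactSupport (pol i u) := by
  have h1 : IsCompact (tsupport u ∪ refl i '' tsupport u) :=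
    hc.isCompact.union (hc.isCompact.image (refl_cont i))
  refine HasCompactSupport.intro h1 fun x hx => ?_
  have hx1 : u x = 0 := image_eq_zero_of_notMem_tsupport fun h => hx (Or.inl h)
  have hx2 : u (refl i x) = 0 := image_eq_zero_of_notMem_tsupport fun h =>
    hx (Or.inr ⟨refl i x, h, refl_refl i x⟩)
  unfold pol
  rw [hx1, hx2]
  simp

lemma norm_fderiv_comp_refl {f : Eu n → ℝ} (i : Fin n) (x : Eu n) :
    ‖fderiv ℝ (fun y => f (refl i y)) x‖ = ‖fderiv ℝ f (refl i x)‖ := by
  have h1 : fderiv ℝ (f ∘ (reflE i).toContinuousLinearEquiv) x =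
      (fderiv ℝ f ((reflE i).toContinuousLinearEquiv x)).comp
        ((reflE i).toContinuousLinearEquiv : Eu n →L[ℝ] Eu n) :=
    (reflE i).toContinuousLinearEquiv.comp_right_fderiv
  have h2 : (fun y => f (refl i y)) = f ∘ (reflE i).toContinuousLinearEquiv := rfl
  rw [h2, h1]
  exact ContinuousLinearMap.opNorm_comp_linearIsometryEquiv _ (reflE i)

/-- pointwise identity for the derivatives of maximum and minimum -/
lemma fderiv_max_min {f g : Eu n → ℝ} {x : Eu n} (hf : DifferentiableAt ℝ f x)
    (hg : DifferentiableAt ℝ g x) (hP : DifferentiableAt ℝ (fun y => max (f y) (g y)) x) (k : ℕ) :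
    ‖fderiv ℝ (fun y => max (f y) (g y)) x‖ₑ ^ k + ‖fderiv ℝ (fun y => min (f y) (g y)) x‖ₑ ^ k =
      ‖fderiv ℝ f x‖ₑ ^ k + ‖fderiv ℝ g x‖ₑ ^ k := by
  rcases lt_trichotomy (f x) (g x) with h | h | h
  · have h1 : (fun y => max (f y) (g y)) =ᶠ[𝓝 x] g := by
      filter_upwards [(hf.continuousAt.tendsto).eventually_lt hg.continuousAt.tendsto h] with y hy
      exact max_eq_right hy.le
    have h2 : (fun y => min (f y) (g y)) =ᶠ[𝓝 x] f := by
      filter_upwards [(hf.continuousAt.tendsto).eventually_lt hg.continuousAt.tendsto h] with y hy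
      exact min_eq_left hy.le
    rw [h1.fderiv_eq, h2.fderiv_eq, add_comm]
  · have h1 : fderiv ℝ (fun y => max (f y) (g y)) x = fderiv ℝ f x := by
      have hm : IsLocalMin ((fun y => max (f y) (g y)) - f) x := by
        refine Eventually.of_forall fun y => ?_
        simp only [Pi.sub_apply, h, max_self, sub_self]
        have := le_max_left (f y) (g y)
        linarith
      have := hm.fderiv_eq_zero
      rw [fderiv_sub hP hf, sub_eq_zero] at this
      exact this
    have h2 : fderiv ℝ (fun y => max (f y) (g y)) x = fderiv ℝ g x := by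
      have hm : IsLocalMin ((fun y => max (f y) (g y)) - g) x := by
        refine Eventually.of_forall fun y => ?_
        simp only [Pi.sub_apply, h, max_self, sub_self]
        have := le_max_right (f y) (g y)
        linarith
      have := hm.fderiv_eq_zero
      rw [fderiv_sub hP hg, sub_eq_zero] at this
      exact this
    have h3 : (fun y => min (f y) (g y)) = fun y => (f y + g y) - max (f y) (g y) := by
      funext y
      have := min_add_max (f y) (g y)
      linarith
    have h4 : fderiv ℝ (fun y => min (f y) (g y)) x = fderiv ℝ g x := by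
      rw [h3, fderiv_fun_sub (hf.fun_add hg) hP, fderiv_fun_add hf hg, h1]
      abel
    rw [h1, h4]
  · have h1 : (fun y => max (f y) (g y)) =ᶠ[𝓝 x] f := by
      filter_upwards [(hg.continuousAt.tendsto).eventually_lt hf.continuousAt.tendsto h] with y hy
      exact max_eq_left hy.le
    have h2 : (fun y => min (f y) (g y)) =ᶠ[𝓝 x] g := by
      filter_upwards [(hg.continuousAt.tendsto).eventually_lt hf.continuousAt.tendsto h] with y hy
      exact min_eq_right hy.le
    rw [h1.fderiv_eq, h2.fderiv_eq]

lemma hyperplane_null (i : Fin n) : volume {x : Eu n | x i = 0} = 0 := by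
  have h1 : {x : Eu n | x i = 0} = (LinearMap.ker (EuclideanSpace.proj (𝕜 := ℝ) i : Eu n →L[ℝ] ℝ).toLinearMap : Set (Eu n)) := by
    ext x
    simp
  rw [h1]
  refine Measure.addHaar_submodule _ _ fun h => ?_
  have h2 : (EuclideanSpace.single i (1:ℝ) : Eu n) ∈ LinearMap.ker (EuclideanSpace.proj (𝕜 := ℝ) i : Eu n →L[ℝ] ℝ).toLinearMap := by
    rw [h]; trivial
  simp at h2

/-- polarization preserves the energy -/
lemma pol_energy {u : Eu n → ℝ} {C : ℝ≥0} (hu : LipschitzWith C u) (i : Fin n) (k : ℕ) :
    ∫⁻ x, ‖fderiv ℝ (pol i u) x‖ₑ ^ k = ∫⁻ x, ‖fderiv ℝ u x‖ₑ ^ k := by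
  set w := pol i u with hw
  have hwl : LipschitzWith C w := pol_lip hu i
  have hPl := lip_max hu i
  have d1 := hu.ae_differentiableAt (μ := (volume : Measure (Eu n)))
  have d2 : ∀ᵐ x ∂(volume : Measure (Eu n)), DifferentiableAt ℝ u (refl i x) :=
    (refl_mp i).quasiMeasurePreserving.ae d1
  have d3 := hPl.ae_differentiableAt (μ := (volume : Measure (Eu n)))
  have d3' : ∀ᵐ x ∂(volume : Measure (Eu n)),
      DifferentiableAt ℝ (fun y => max (u y) (u (refl i y))) (refl i x) :=
    (refl_mp i).quasiMeasurePreserving.ae d3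
  have d4 : ∀ᵐ x ∂(volume : Measure (Eu n)), x i ≠ 0 := by
    rw [ae_iff]
    simpa using hyperplane_null i
  have hcomp : ∀ x, DifferentiableAt ℝ u (refl i x) → DifferentiableAt ℝ (fun y => u (refl i y)) x :=
    fun x hx => DifferentiableAt.comp (f := refl i) (g := u) x hx
      ((reflE i).toContinuousLinearEquiv.differentiableAt)
  -- upper points
  have hup : ∀ x : Eu n, 0 < x i → DifferentiableAt ℝ u x → DifferentiableAt ℝ u (refl i x) →
      DifferentiableAt ℝ (fun y => max (u y) (u (refl i y))) x →
      ‖fderiv ℝ w x‖ₑ ^ k + ‖fderiv ℝ w (refl i x)‖ₑ ^ k =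
        ‖fderiv ℝ u x‖ₑ ^ k + ‖fderiv ℝ u (refl i x)‖ₑ ^ k := by
    intro x hx h1 h2 h3
    have hcoord : Continuous (fun y : Eu n => y i) := by fun_prop
    have e1 : w =ᶠ[𝓝 x] fun y => max (u y) (u (refl i y)) := by
      filter_upwards [(isOpen_lt continuous_const hcoord).mem_nhds hx] with y hy
      exact if_pos (le_of_lt hy)
    have e2 : w =ᶠ[𝓝 (refl i x)] fun y => min (u y) (u (refl i y)) := by
      have hx' : (refl i x) i < 0 := by rw [refl_self]; linarith
      filter_upwards [(isOpen_lt hcoord continuous_const).mem_nhds hx'] with y hy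
      exact if_neg (not_le.2 hy)
    have e3 : (fun y => min (u y) (u (refl i y))) =
        fun y => (fun z => min (u z) (u (refl i z))) (refl i y) := by
      funext y
      simp only [refl_refl, min_comm]
    have e4 : ‖fderiv ℝ (fun y => min (u y) (u (refl i y))) (refl i x)‖ₑ =
        ‖fderiv ℝ (fun y => min (u y) (u (refl i y))) x‖ₑ := by
      have := norm_fderiv_comp_refl (f := fun z => min (u z) (u (refl i z))) i x
      rw [← e3] at this
      rw [← ofReal_norm, ← ofReal_norm, this]
    have e5 : ‖fderiv ℝ (fun y => u (refl i y)) x‖ₑ = ‖fderiv ℝ u (refl i x)‖ₑ := by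
      rw [← ofReal_norm, ← ofReal_norm, norm_fderiv_comp_refl]
    rw [e1.fderiv_eq, e2.fderiv_eq, e4, ← e5]
    exact fderiv_max_min h1 (hcomp x h2) h3 k
  have hae : ∀ᵐ x ∂(volume : Measure (Eu n)),
      ‖fderiv ℝ w x‖ₑ ^ k + ‖fderiv ℝ w (refl i x)‖ₑ ^ k =
        ‖fderiv ℝ u x‖ₑ ^ k + ‖fderiv ℝ u (refl i x)‖ₑ ^ k := by
    filter_upwards [d1, d2, d3, d3', d4] with x h1 h2 h3 h3' h4
    rcases lt_or_gt_of_ne h4 with h | h
    · have := hup (refl i x) (by rw [refl_self]; linarith) h2 (by rwa [refl_refl]) h3'
      rw [refl_refl] at this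
      rw [add_comm, this, add_comm]
    · exact hup x h h1 h2 h3
  have hmw : Measurable (fun x => ‖fderiv ℝ w x‖ₑ ^ k) := (measurable_fderiv ℝ w).enorm.pow_const k
  have hmu : Measurable (fun x => ‖fderiv ℝ u x‖ₑ ^ k) := (measurable_fderiv ℝ u).enorm.pow_const k
  have hint := lintegral_congr_ae hae
  rw [lintegral_add_left hmw, lintegral_add_left hmu,
    (refl_mp i).lintegral_comp hmw, (refl_mp i).lintegral_comp hmu, ← two_mul, ← two_mul] at hint
  exact (ENNReal.mul_right_inj two_ne_zero ENNReal.ofNat_ne_top).1 hint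

end Pool.Agent.N283.Pol
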