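import Mathlib
import Pool.Agent.N283.Pol.Base

/-!
The reflection inequality in terms of `1`-Lipschitz curves.
-/

set_option autoImplicit false

open MeasureTheory Set Filter Topology Metric
open scoped ENNReal NNReal

namespace Pool.Agent.N283.Pol

open Pool.Agent.TH221

variable {n : ℕ}

lemma nrm_enorm_le {f g : Eu n → Eu n →L[ℝ] ℝ} (h : ∀ᵐ x ∂(volume : Measure (Eu n)), ‖f x‖ ≤ ‖g x‖) :
    nrm volume (fun x => ENNReal.ofReal ‖f x‖) ≤ nrm volume (fun x => ENNReal.ofReal ‖g x‖) := by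
  refine nrm_mono_ae ?_
  filter_upwards [h] with x hx using ENNReal.ofReal_le_ofReal hx

theorem step (hn : 2 ≤ n) (i : Fin n) {E F : Set (Eu n)} (hE : IsCompact E) (hF : IsCompact F)
    (hne : E.Nonempty) (hEp : ∀ x ∈ E, 0 < x i) (hFm : ∀ x ∈ F, x i < 0)
    {ρ : Eu n → ℝ≥0∞} (hρ : Adm ∅ E (refl i '' F) ρ) (hfin : ∫⁻ x, ρ x ^ n ≠ ⊤)
    {θ : ℝ} (hθ : θ ∈ Ioo (0:ℝ) 1) :
    (⨅ (σ : Eu n → ℝ≥0∞) (_ : Adm ∅ E F σ), ∫⁻ x, σ x ^ n) ≤
      (ENNReal.ofReal (1 - θ)⁻¹ *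
        (ENNReal.ofReal ((1 + θ) / (1 - θ)) * nrm volume ρ + ENNReal.ofReal θ)) ^ n := by
  have hn1 : 1 ≤ n := by omega
  have hρtop : nrm volume ρ ≠ ⊤ := nrm_ne_top hfin
  obtain ⟨v, hv, hvc, hv1, hv2, hloc, hnorm⟩ := exists_potential hn (E := (∅ : Set (Eu n)))
    isClosed_empty (by simp) hE (hF.image (refl_cont i)) hne hρ.1 hfin hρ.2 hθ.1 hθ.2
  set T : ℝ := 1 - θ with hT
  have hT0 : 0 < T := by rw [hT]; linarith [hθ.2]
  obtain ⟨C, hC⟩ := lip_of_local hv hvc (fun z => hloc z (notMem_empty z))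
  -- truncation
  set u : Eu n → ℝ := fun x => max 0 (min (v x) T) with hu
  have huc : LipschitzWith C u := (hC.min_const T).const_max 0
  have hucs : HasCompactSupport u := by
    refine HasCompactSupport.intro hvc fun x hx => ?_
    have h0 : v x = 0 := image_eq_zero_of_notMem_tsupport hx
    simp only [hu, h0, min_eq_left hT0.le, max_self]
  have hu0 : ∀ x, 0 ≤ u x := fun x => le_max_left _ _
  have huT : ∀ x, u x ≤ T := fun x => max_le hT0.le (min_le_right _ _)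
  have hugrad : ∀ᵐ x ∂(volume : Measure (Eu n)), ‖fderiv ℝ u x‖ ≤ ‖fderiv ℝ v x‖ := by
    filter_upwards [hC.ae_differentiableAt, huc.ae_differentiableAt] with x h1 h2
    refine fderiv_le_of_contr h2 h1 fun y => ?_
    have h3 : LipschitzWith 1 (fun t : ℝ => max 0 (min t T)) :=
      (LipschitzWith.id.min_const T).const_max 0
    have h4 := h3.dist_le_mul (v y) (v x)
    rw [NNReal.coe_one, one_mul, Real.dist_eq, Real.dist_eq] at h4
    exact h4
  -- polarization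
  set w : Eu n → ℝ := pol i u with hw
  have hwl : LipschitzWith C w := pol_lip huc i
  have hwE : ∀ x ∈ E, w x = T := by
    intro x hx
    have h1 : w x = max (u x) (u (refl i x)) := if_pos (hEp x hx).le
    have h2 : u x = T := by
      simp only [hu, hv1 x hx, min_self, max_eq_right hT0.le]
    rw [h1, h2]
    exact max_eq_left (huT _)
  have hwF : ∀ x ∈ F, w x = 0 := by
    intro x hx
    have h1 : w x = min (u x) (u (refl i x)) := if_neg (not_le.2 (hFm x hx))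
    have h2 : u (refl i x) = 0 := by
      simp only [hu, hv2 (refl i x) ⟨x, hx, rfl⟩, min_eq_left hT0.le, max_self]
    rw [h1, h2]
    exact min_eq_right (hu0 _)
  have henergy : nrm volume (fun x => ENNReal.ofReal ‖fderiv ℝ w x‖) ≤
      nrm volume (fun x => ENNReal.ofReal ‖fderiv ℝ v x‖) := by
    refine le_trans ?_ (nrm_enorm_le hugrad)
    rw [nrm_le_iff hn1, nrm_pow hn1]
    have := pol_energy huc i n
    simp only [← ofReal_norm] at this
    exact this.le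
  have hrestr : (volume.restrict (∅ᶜ : Set (Eu n)) : Measure (Eu n)) = volume := by
    rw [compl_empty, Measure.restrict_univ]
  rw [hrestr] at hnorm
  refine modulus_le_of_potential hn (E := (∅ : Set (Eu n))) isClosed_empty (by simp)
    (fun f _ hf => by rwa [compl_empty] at hf) hwl.continuous (pol_compact hucs i) hT0 hwE hwF
    (fun z _ => ⟨1, one_pos, C, hwl.lipschitzOnWith⟩) (by finiteness) ?_
  rw [hrestr]
  exact henergy.trans hnorm

theorem ineq (hn : 2 ≤ n) (i : Fin n) {E F : Set (Eu n)} (hE : IsCompact E) (hF : IsCompact F)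
    (hne : E.Nonempty) (hEp : ∀ x ∈ E, 0 < x i) (hFm : ∀ x ∈ F, x i < 0)
    {ρ : Eu n → ℝ≥0∞} (hρ : Adm ∅ E (refl i '' F) ρ) :
    (⨅ (σ : Eu n → ℝ≥0∞) (_ : Adm ∅ E F σ), ∫⁻ x, σ x ^ n) ≤ ∫⁻ x, ρ x ^ n := by
  have hn1 : 1 ≤ n := by omega
  by_cases hfin : ∫⁻ x, ρ x ^ n = ⊤
  · rw [hfin]; exact le_top
  have hρtop : nrm volume ρ ≠ ⊤ := nrm_ne_top hfin
  have hstep := fun (θ : ℝ) (hθ : θ ∈ Ioo (0:ℝ) 1) => step hn i hE hF hne hEp hFm hρ hfin hθ
  rw [← nrm_pow hn1]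
  have hlim : Tendsto (fun θ : ℝ => (ENNReal.ofReal (1 - θ)⁻¹ *
      (ENNReal.ofReal ((1 + θ) / (1 - θ)) * nrm volume ρ + ENNReal.ofReal θ)) ^ n) (𝓝[>] 0)
      (𝓝 ((ENNReal.ofReal (1 - 0)⁻¹ *
      (ENNReal.ofReal ((1 + 0) / (1 - 0)) * nrm volume ρ + ENNReal.ofReal 0)) ^ n)) := by
    refine Tendsto.mono_left ?_ (nhdsWithin_le_nhds (s := Ioi (0:ℝ)))
    have h1 : Tendsto (fun θ : ℝ => ENNReal.ofReal (1 - θ)⁻¹) (𝓝 0)
        (𝓝 (ENNReal.ofReal (1 - 0)⁻¹)) := by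
      refine ENNReal.tendsto_ofReal ?_
      have : ContinuousAt (fun θ : ℝ => (1 - θ)⁻¹) 0 := by
        refine ContinuousAt.inv₀ (by fun_prop) (by norm_num)
      exact this
    have h2 : Tendsto (fun θ : ℝ => ENNReal.ofReal ((1 + θ) / (1 - θ))) (𝓝 0)
        (𝓝 (ENNReal.ofReal ((1 + 0) / (1 - 0)))) := by
      refine ENNReal.tendsto_ofReal ?_
      have : ContinuousAt (fun θ : ℝ => (1 + θ) / (1 - θ)) 0 := by
        refine ContinuousAt.div (by fun_prop) (by fun_prop) (by norm_num)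
      exact this
    have h3 : Tendsto (fun θ : ℝ => ENNReal.ofReal θ) (𝓝 0) (𝓝 (ENNReal.ofReal 0)) :=
      (ENNReal.continuous_ofReal.tendsto 0)
    have h4 := ((ENNReal.Tendsto.mul_const h2 (Or.inr hρtop)).add h3)
    have h5 := ENNReal.Tendsto.mul h1 (Or.inr (by finiteness)) h4 (Or.inr (by finiteness))
    have h6 := h5.ennrpow_const (n : ℝ)
    simpa only [ENNReal.rpow_natCast] using h6
  have hval : (ENNReal.ofReal (1 - 0)⁻¹ *
      (ENNReal.ofReal ((1 + 0) / (1 - 0)) * nrm volume ρ + ENNReal.ofReal 0)) ^ n =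
      nrm volume ρ ^ n := by
    simp
  rw [hval] at hlim
  refine ge_of_tendsto hlim ?_
  have : Ioo (0:ℝ) 1 ∈ 𝓝[>] (0:ℝ) := Ioo_mem_nhdsGT one_pos
  filter_upwards [this] with θ hθ using hstep θ hθ

end Pool.Agent.N283.Pol
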